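import Pool.Agent.helper62.MS.SpecA
import Pool.Agent.helper62.RS.All

/-!
# MP_07c750, project MS, row QM3: narrow packets
-/

set_option autoImplicit false

open scoped MatrixGroups ContDiff Topology UpperHalfPlane ComplexConjugate
open UpperHalfPlane MeasureTheory Filter Set

namespace Pool.Agent.MS

open Pool.Agent.RS

theorem QM3_int (Γ : Subgroup SL(2, ℝ)) (F : Set ℍ) (hF : QU.NiceDom Γ F) (f : ℍ → ℝ) (hf : Continuous f) :
    IntegrableOn f F := by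
  obtain ⟨K, hK, hFK⟩ := hF.rel
  exact (hf.continuousOn.integrableOn_compact hK).mono_set hFK

theorem QM3_V (Γ : Subgroup SL(2, ℝ)) (F : Set ℍ) (hF : QU.NiceDom Γ F) (V : ℍ → ℝ) (hV : QU.Inv Γ V)
    (hV1 : ∀ z, 0 ≤ V z ∧ V z ≤ 1) (φ : ℍ → ℂ) (hφ : Continuous φ) :
    0 ≤ ∫ z in F, V z * ‖φ z‖ ^ 2 ∧ ∫ z in F, V z * ‖φ z‖ ^ 2 ≤ nn F φ := by
  have hc : Continuous fun z => ‖φ z‖ ^ 2 := (continuous_norm.comp hφ).pow 2
  constructor
  · exact integral_nonneg fun z => mul_nonneg (hV1 z).1 (sq_nonneg _)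
  · unfold nn
    apply integral_mono (QM3_int Γ F hF _ (hV.1.mul hc)) (QM3_int Γ F hF _ hc)
    intro z
    show V z * ‖φ z‖ ^ 2 ≤ ‖φ z‖ ^ 2
    have h := mul_le_mul_of_nonneg_right (hV1 z).2 (sq_nonneg ‖φ z‖)
    rwa [one_mul] at h

theorem QM3_hF (α : ℝ → ℝ) (h : ∫ x, α x = 1) : ‖hF α 0‖ ^ 2 = 1 := by
  have h1 : hF α 0 = ((∫ x, α x : ℝ) : ℂ) := by
    unfold hF
    rw [← integral_complex_ofReal]
    apply integral_congr_ae
    filter_upwards with τ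
    simp
  rw [h1, h]
  simp

/-- the numerical part -/
theorem QM3_num (η η1 B K K1 r w E e X IV nnφ qc qx IA I0 : ℝ) (hη1 : 0 < η1) (hη1η : η1 ≤ η) (hη11 : η1 ≤ 1) (hB : 0 ≤ B)
    (hr : 0 < r) (hw : 0 < w) (hwB : B * w ≤ η1 / 16) (hIV0 : 0 ≤ IV) (hIV : IV ≤ nnφ) (hqc0 : 0 ≤ qc) (hqx0 : 0 ≤ qx)
    (hqc : r * qc ≤ (1 + η1 / 4) * nnφ) (hqx : r * qx ≤ 2 * w ^ 2 * nnφ)
    (hX : X = B * (Real.sqrt qc * Real.sqrt qx) + E * nnφ) (hE : r * E ≤ η1 / 4)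
    (hI0 : I0 ≤ (1 + η1 / 4) / r * (IV + η1 / 4 * nnφ)) (hIA : |IA - I0| ≤ X) :
    r * IA ≤ IV + η * nnφ := by
  have hnn : 0 ≤ nnφ := hIV0.trans hIV
  have h1 : r * (Real.sqrt qc * Real.sqrt qx) ≤ 2 * w * nnφ := by
    rw [← Real.sqrt_mul hqc0]
    have h2 : r * Real.sqrt (qc * qx) = Real.sqrt (r * qc * (r * qx)) := by
      have h3 : r * qc * (r * qx) = r ^ 2 * (qc * qx) := by ring
      rw [h3, Real.sqrt_mul (sq_nonneg r), Real.sqrt_sq hr.le]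
    rw [h2]
    apply Real.sqrt_le_iff.2
    refine ⟨by positivity, ?_⟩
    calc r * qc * (r * qx) ≤ ((1 + η1 / 4) * nnφ) * (2 * w ^ 2 * nnφ) :=
          mul_le_mul hqc hqx (by positivity) (by positivity)
      _ = (1 + η1 / 4) * 2 * (w * nnφ) ^ 2 := by ring
      _ ≤ 4 * (w * nnφ) ^ 2 := by
          apply mul_le_mul_of_nonneg_right _ (sq_nonneg _)
          linarith
      _ = (2 * w * nnφ) ^ 2 := by ring
  have h2 : r * X ≤ η1 / 8 * nnφ + η1 / 4 * nnφ := by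
    rw [hX, mul_add]
    apply add_le_add
    · calc r * (B * (Real.sqrt qc * Real.sqrt qx)) = B * (r * (Real.sqrt qc * Real.sqrt qx)) := by ring
        _ ≤ B * (2 * w * nnφ) := mul_le_mul_of_nonneg_left h1 hB
        _ = 2 * (B * w) * nnφ := by ring
        _ ≤ 2 * (η1 / 16) * nnφ := by
            apply mul_le_mul_of_nonneg_right _ hnn
            linarith
        _ = η1 / 8 * nnφ := by ring
    · rw [← mul_assoc]
      exact mul_le_mul_of_nonneg_right hE hnn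
  have h3 : IA ≤ I0 + X := by
    have := (abs_le.1 hIA).2
    linarith
  have h4 : r * I0 ≤ (1 + η1 / 4) * (IV + η1 / 4 * nnφ) := by
    calc r * I0 ≤ r * ((1 + η1 / 4) / r * (IV + η1 / 4 * nnφ)) := mul_le_mul_of_nonneg_left hI0 hr.le
      _ = (1 + η1 / 4) * (IV + η1 / 4 * nnφ) := by field_simp
  have h5 : r * IA ≤ r * I0 + r * X := by
    rw [← mul_add]
    exact mul_le_mul_of_nonneg_left h3 hr.le
  have h6 : (1 + η1 / 4) * (IV + η1 / 4 * nnφ) ≤ IV + 9 / 16 * η1 * nnφ := by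
    have h7 : η1 / 4 * IV ≤ η1 / 4 * nnφ := mul_le_mul_of_nonneg_left hIV (by positivity)
    have h8 : η1 / 4 * (η1 / 4 * nnφ) ≤ 1 / 4 * (η1 / 4 * nnφ) := by
      apply mul_le_mul_of_nonneg_right _ (by positivity)
      linarith
    have h9 : (1 + η1 / 4) * (IV + η1 / 4 * nnφ) = IV + η1 / 4 * IV + η1 / 4 * nnφ + η1 / 4 * (η1 / 4 * nnφ) := by ring
    rw [h9]
    linarith
  have h7 : η1 * nnφ ≤ η * nnφ := mul_le_mul_of_nonneg_right hη1η hnn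
  have h8 : 0 ≤ η1 * nnφ := by positivity
  linarith

theorem QM3_aux (hNM3 : NM3_stmt) (hSTB : STB_stmt) (hCV1 : CV1_stmt) (hGR2 : GR2_stmt) (hBK5 : BK5_stmt)
    (hINB : INB_stmt) (hQNT : QNT_stmt) : QM3_stmt := by
  intro Γ F V hΓ hFd hV hV2 hV01 η hη
  obtain ⟨η1, hη1, hη1η, hη11⟩ : ∃ η1 : ℝ, 0 < η1 ∧ η1 ≤ η ∧ η1 ≤ 1 :=
    ⟨min η 1, lt_min hη one_pos, min_le_left _ _, min_le_right _ _⟩
  obtain ⟨B, hB, hinb⟩ := hINB Γ F V hΓ hFd hV hV2
  obtain ⟨w0, hw0, hqnt⟩ := hQNT Γ F V hΓ hFd hV (fun z => (hV01 z).1) (fun z => (hV01 z).2) (η1 / 4) (by positivity)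
  refine ⟨min (1 / 8) (min w0 (η1 / (16 * (B + 1)))), lt_min (by norm_num) (lt_min hw0 (by positivity)), min_le_left _ _, ?_⟩
  intro w β α hw hww hβ hα
  have hw8 : w ≤ 1 / 8 := hww.trans (min_le_left _ _)
  have hww0 : w ≤ w0 := hww.trans ((min_le_right _ _).trans (min_le_left _ _))
  have hwη : w ≤ η1 / (16 * (B + 1)) := hww.trans ((min_le_right _ _).trans (min_le_right _ _))
  have hwB : B * w ≤ η1 / 16 := by
    rw [le_div_iff₀ (by positivity)] at hwη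
    nlinarith
  have hw4 : w ≤ 1 / 4 := by linarith
  obtain ⟨-, -, -, -, hmono, -⟩ := hSTB
  have hα4 : BA (1 / 4) α := ((hmono w (1 / 4) α hw4).2.1) hα
  have hβ4 : BB (1 / 4) β := ((hmono w (1 / 4) β hw4).2.2) hβ
  obtain ⟨r0, hr0, hnm⟩ := hNM3 Γ F α β hΓ hFd hα4 hβ4 (η1 / 4) (by positivity)
  obtain ⟨hcT, hcc, hxm, hβ'⟩ := hCV1.2.2 w α β hα.1 hβ.1
  obtain ⟨hcT', hcc', -, -⟩ := hCV1.2.2 w α (fun x => x * β x) hα.1 hβ'
  have hT : TB (1 / 4) (pc β α) := NM2_TB w _ hw4 _ hcT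
  have hT' : TB (1 / 4) (pc (fun x => x * β x) α) := NM2_TB w _ hw4 _ hcT'
  have hβ4' : SB (1 / 4) (fun x => x * β x) := NM2_SB w (1 / 4) hw4 _ hβ'
  have hsq := NM2_sq w β hβ.1 hβ'
  rw [hβ.2, mul_one] at hsq
  obtain ⟨rc, hrc1, hrc⟩ := hBK5 α (fun x => x * β x) hα4.1 hβ4' (w ^ 2) 1 (by positivity)
  have hreal : ∀ z, conj (pc β α z) = pc β α z := fun z => Complex.conj_ofReal _
  obtain ⟨K1, hK1, hinb2⟩ := hinb (pc β α) hT hreal
  have hK0 : 0 ≤ 4 * K1 / η1 := by positivity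
  refine ⟨1 + 4 * K1 / η1, max r0 rc, by linarith, hr0.trans (le_max_left _ _), ?_⟩
  intro r φ hr hφ t ht het
  have hr0' : r0 ≤ r := (le_max_left _ _).trans hr
  have hrc' : rc ≤ r := (le_max_right _ _).trans hr
  have hr1 : 1 ≤ r := hr0.trans hr0'
  have hrpos : 0 < r := by linarith
  have hcont := PKT_cont φ hφ.1
  have hinv : InvC Γ φ := ⟨hcont, hφ.2.1⟩
  obtain ⟨hup, -⟩ := hnm r hr0'
  obtain ⟨hIV0, hIV1⟩ := QM3_V Γ F hFd V hV hV01 φ hcont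
  have hnn : 0 ≤ nn F φ := hIV0.trans hIV1
  have e1 := hinb2 r r t φ hr1 (by rw [sub_self, abs_zero]; norm_num)
    (by rw [sub_self, abs_zero]; positivity) ht hφ
  have e2 := hqnt w (pc β α) r ((1 + η1 / 4) / r) hw hww0 hcT (fun u hu => by
    have h := hup u hu
    rw [div_mul_eq_mul_div, le_div_iff₀ hrpos, mul_comm]
    exact h) (by positivity) φ hinv
  have e3 := hup φ hinv
  have e4 : r * qn F (xm (pc β α)) r φ ≤ 2 * w ^ 2 * nn F φ := by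
    rw [hxm, (hGR2 Γ F hΓ hFd r φ hφ).2 _ r hT', hcc']
    have h1 := (abs_le.1 (hrc r r hrc' (by rw [sub_self, abs_zero]; norm_num))).2
    rw [sub_self, QM3_hF α hα.2.2, one_mul] at h1
    calc r * (nn F φ * bk (pr (fun x => x * β x) α) r r) = (r * bk (pr (fun x => x * β x) α) r r) * nn F φ := by ring
      _ ≤ (2 * w ^ 2) * nn F φ := by
          apply mul_le_mul_of_nonneg_right _ hnn
          linarith
      _ = 2 * w ^ 2 * nn F φ := by ring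
  have hq : ∀ c : ℍ → ℂ, 0 ≤ qn F c r φ := fun c => integral_nonneg fun g => sq_nonneg _
  have e5 : r * (K1 * Real.exp t / r ^ 2) ≤ η1 / 4 := by
    have h1 : K1 ≤ η1 / 4 * (1 + 4 * K1 / η1) := by
      have h2 : η1 / 4 * (1 + 4 * K1 / η1) = η1 / 4 + K1 := by field_simp
      rw [h2]
      linarith
    have h3 : (1 + 4 * K1 / η1) * Real.exp t ≤ r := by
      rw [le_div_iff₀ (by linarith)] at het
      linarith
    have h4 : K1 * Real.exp t ≤ η1 / 4 * r := by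
      calc K1 * Real.exp t ≤ (η1 / 4 * (1 + 4 * K1 / η1)) * Real.exp t :=
            mul_le_mul_of_nonneg_right h1 (Real.exp_nonneg t)
        _ = η1 / 4 * ((1 + 4 * K1 / η1) * Real.exp t) := by ring
        _ ≤ η1 / 4 * r := mul_le_mul_of_nonneg_left h3 (by positivity)
    calc r * (K1 * Real.exp t / r ^ 2) = K1 * Real.exp t / r := by field_simp
      _ ≤ (η1 / 4 * r) / r := div_le_div_of_nonneg_right h4 hrpos.le
      _ = η1 / 4 := by field_simp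
  exact QM3_num η η1 B (1 + 4 * K1 / η1) K1 r w (K1 * Real.exp t / r ^ 2) (Real.exp t) _ _ (nn F φ)
    (qn F (pc β α) r φ) (qn F (xm (pc β α)) r φ) _ _ hη1 hη1η hη11 hB hrpos hw hwB hIV0 hIV1
    (hq _) (hq _) e3 e4 rfl e5 e2 e1

theorem QM3_proof (hNM3 : NM3_stmt) (hSTB : STB_stmt) : QM3_stmt :=
  QM3_aux hNM3 hSTB RS.A_CV1 RS.A_GR2 RS.A_BK5 RS.A_INB RS.A_QNT

end Pool.Agent.MS
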